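import Pool.Agent.FZC.Blk
import Pool.Agent.FZC.Fav
import Pool.Agent.FZC.Nb

set_option autoImplicit false

open Polynomial Pool.Agent.FZC Filter Topology

/-!
The eigenvalues of the finite sections.  Text: MP_1366af_an_closure_helper78.md, section 1.
-/

namespace Pool.Agent.FZR

/-- All eigenvalues of all finite sign matrices. -/
def E : Set ℂ := {z | ∃ w : List Bool, (D w).eval z = 0}

theorem mem_E_of_P {v u : List Bool} {z : ℂ} (h : (D u).eval ((P v).eval z) = 0) : z ∈ E := by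
  refine ⟨W v (J (pb v) true u), ?_⟩
  rw [D_W, eval_mul, eval_comp, h, mul_zero]

theorem P_natDegree (v : List Bool) : (P v).natDegree ≠ 0 := by
  have h : (P v).natDegree = v.length + 2 := by
    rw [P, natDegree_X_mul (D_monic v).ne_zero, D_natDegree]
  omega

theorem closure_P {v : List Bool} {z : ℂ} (h : (P v).eval z ∈ closure E) : z ∈ closure E := by
  have h1 := (Polynomial.isOpenQuotientMap_eval (P v) (P_natDegree v)).isOpenMap
  have h2 := h1.preimage_closure_subset_closure_preimage (s := E) h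
  refine closure_mono ?_ h2
  rintro w ⟨u, hu⟩
  exact mem_E_of_P hu

theorem closure_sq {z : ℂ} (h : z ^ 2 ∈ closure E) : z ∈ closure E := by
  apply closure_P (v := [])
  have h1 : (P []).eval z = z ^ 2 := by simp [P, D, KK, sq]
  rwa [h1]

theorem closure_pow (n : ℕ) : ∀ z : ℂ, z ^ 2 ^ n ∈ closure E → z ∈ closure E := by
  induction n with
  | zero => intro z h; simpa using h
  | succ n ih =>
    intro z h
    apply closure_sq
    apply ih
    rwa [← pow_mul, ← pow_succ']

private theorem cheb (m : ℕ) (θ : ℂ) :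
    (KK (List.replicate m true)).1.eval (2 * Complex.cos θ) * Complex.sin θ
        = Complex.sin ((m + 2 : ℕ) * θ) ∧
    (KK (List.replicate m true)).2.eval (2 * Complex.cos θ) * Complex.sin θ
        = Complex.sin ((m + 1 : ℕ) * θ) := by
  induction m with
  | zero =>
    constructor
    · simp [KK, Complex.sin_two_mul]
      ring
    · simp [KK]
  | succ m ih =>
    obtain ⟨h1, h2⟩ := ih
    rw [List.replicate_succ]
    simp only [KK]
    constructor
    · simp only [eval_sub, eval_mul, eval_X, eval_C, sg, if_true, one_mul]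
      have e1 : ((m + 1 + 2 : ℕ) : ℂ) * θ = ((m + 2 : ℕ) : ℂ) * θ + θ := by push_cast; ring
      have e2 : ((m + 1 : ℕ) : ℂ) * θ = ((m + 2 : ℕ) : ℂ) * θ - θ := by push_cast; ring
      rw [e2, Complex.sin_sub] at h2
      rw [e1, Complex.sin_add, sub_mul, mul_assoc, h1, h2]
      ring
    · rw [h1]

theorem real_mem (r : ℝ) (h0 : 0 ≤ r) (h1 : r ≤ 1) : (r : ℂ) ∈ closure E := by
  set x : ℝ := Real.arccos (r / 2) / Real.pi with hx
  have hpi := Real.pi_pos
  have hx0 : 0 < x := by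
    apply div_pos _ hpi
    rw [Real.arccos_pos]
    linarith
  have hx1 : x < 1 := by
    rw [hx, div_lt_one hpi]
    rcases (Real.arccos_le_pi (r / 2)).lt_or_eq with h | h
    · exact h
    · rw [Real.arccos_eq_pi] at h
      linarith
  have hcos : 2 * Real.cos (Real.pi * x) = r := by
    rw [hx, mul_div_cancel₀ _ hpi.ne', Real.cos_arccos (by linarith) (by linarith)]
    ring
  have ht : Tendsto (fun m : ℕ => (⌊x * ((m + 2 : ℕ) : ℝ)⌋₊ : ℝ) / ((m + 2 : ℕ) : ℝ)) atTop (𝓝 x) := by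
    have := tendsto_nat_floor_mul_div_atTop (R := ℝ) hx0.le
    exact this.comp (tendsto_natCast_atTop_atTop.comp (tendsto_add_atTop_nat 2))
  have ht2 : Tendsto (fun m : ℕ => ((2 * Real.cos (Real.pi *
      ((⌊x * ((m + 2 : ℕ) : ℝ)⌋₊ : ℝ) / ((m + 2 : ℕ) : ℝ))) : ℝ) : ℂ)) atTop (𝓝 (r : ℂ)) := by
    have hc : Continuous fun y : ℝ => ((2 * Real.cos (Real.pi * y) : ℝ) : ℂ) := by fun_prop
    have := (hc.tendsto x).comp ht
    rwa [hcos] at this
  refine mem_closure_of_tendsto ht2 ?_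
  filter_upwards [ht.eventually (lt_mem_nhds hx0), ht.eventually (gt_mem_nhds hx1)] with m h2 h3
  set j : ℕ := ⌊x * ((m + 2 : ℕ) : ℝ)⌋₊ with hj
  set q : ℝ := (j : ℝ) / ((m + 2 : ℕ) : ℝ) with hq
  refine ⟨List.replicate m true, ?_⟩
  have h4 := (cheb m ((Real.pi * q : ℝ) : ℂ)).1
  have h5 : Complex.sin ((m + 2 : ℕ) * ((Real.pi * q : ℝ) : ℂ)) = 0 := by
    have h6 : ((m + 2 : ℕ) : ℂ) * ((Real.pi * q : ℝ) : ℂ) = ((j : ℤ) : ℂ) * Real.pi := by
      have h7 : ((m + 2 : ℕ) : ℝ) * (Real.pi * q) = (j : ℝ) * Real.pi := by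
        rw [hq]
        have : ((m + 2 : ℕ) : ℝ) ≠ 0 := by positivity
        field_simp
      have h8 := congrArg (fun t : ℝ => (t : ℂ)) h7
      push_cast at h8 ⊢
      exact h8
    rw [h6]
    exact Complex.sin_int_mul_pi _
  rw [h5] at h4
  have h6 : Complex.sin ((Real.pi * q : ℝ) : ℂ) ≠ 0 := by
    rw [← Complex.ofReal_sin]
    have : 0 < Real.sin (Real.pi * q) := Real.sin_pos_of_pos_of_lt_pi (by positivity) (by nlinarith)
    exact_mod_cast this.ne'
  have h7 := (mul_eq_zero.1 h4).resolve_right h6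
  rw [D]
  convert h7 using 2
  push_cast
  ring

theorem ball_mem (z : ℂ) (h : ‖z‖ ≤ 1) : z ∈ closure E := by
  have hpi := Real.pi_pos
  set y : ℝ := (z.arg + 2 * Real.pi) / (2 * Real.pi) with hy
  have hy0 : 0 ≤ y := by
    have := Complex.neg_pi_lt_arg z
    apply div_nonneg <;> linarith
  have ht : Tendsto (fun n : ℕ => (⌊y * ((2 ^ n : ℕ) : ℝ)⌋₊ : ℝ) / ((2 ^ n : ℕ) : ℝ)) atTop (𝓝 y) := by
    have := tendsto_nat_floor_mul_div_atTop (R := ℝ) hy0
    refine this.comp (tendsto_natCast_atTop_atTop.comp ?_)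
    exact tendsto_pow_atTop_atTop_of_one_lt (by norm_num)
  have hc : Continuous fun t : ℝ => (‖z‖ : ℂ) * Complex.exp (2 * Real.pi * t * Complex.I) := by
    fun_prop
  have hz : (‖z‖ : ℂ) * Complex.exp (2 * Real.pi * y * Complex.I) = z := by
    have h1 : (2 * Real.pi * y * Complex.I : ℂ) = z.arg * Complex.I + 2 * Real.pi * Complex.I := by
      rw [hy]
      push_cast
      have : (Real.pi : ℂ) ≠ 0 := by exact_mod_cast hpi.ne'
      field_simp
    rw [h1, Complex.exp_add, Complex.exp_two_pi_mul_I, mul_one]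
    exact Complex.norm_mul_exp_arg_mul_I z
  have ht2 := (hc.tendsto y).comp ht
  rw [hz] at ht2
  have hcl : z ∈ closure (closure E) := by
    refine mem_closure_of_tendsto ht2 (Eventually.of_forall fun n => ?_)
    simp only [Function.comp]
    apply closure_pow n
    have h1 : ((‖z‖ : ℂ) * Complex.exp (2 * Real.pi *
        (((⌊y * ((2 ^ n : ℕ) : ℝ)⌋₊ : ℝ) / ((2 ^ n : ℕ) : ℝ) : ℝ) : ℂ) * Complex.I)) ^ 2 ^ n
        = ((‖z‖ ^ 2 ^ n : ℝ) : ℂ) := by
      rw [mul_pow, ← Complex.exp_nat_mul]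
      have h2 : ((2 ^ n : ℕ) : ℂ) * (2 * Real.pi *
          (((⌊y * ((2 ^ n : ℕ) : ℝ)⌋₊ : ℝ) / ((2 ^ n : ℕ) : ℝ) : ℝ) : ℂ) * Complex.I) =
          (⌊y * ((2 ^ n : ℕ) : ℝ)⌋₊ : ℕ) * (2 * Real.pi * Complex.I) := by
        have : (2 : ℂ) ^ n ≠ 0 := pow_ne_zero n two_ne_zero
        push_cast
        field_simp
      rw [h2, Complex.exp_nat_mul_two_pi_mul_I, mul_one]
      push_cast
      rfl
    rw [h1]
    exact real_mem _ (by positivity) (pow_le_one₀ (norm_nonneg _) h)
  rwa [closure_closure] at hcl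

theorem P_norm_gt {z : ℂ} (h : z ∉ closure E) (v : List Bool) : 1 < ‖(P v).eval z‖ := by
  by_contra hcon
  exact h (closure_P (ball_mem _ (not_lt.1 hcon)))

theorem exists_DecU {z : ℂ} (h : z ∉ Sig) : ∃ M : ℝ, DecU M z := by
  have h1 : ¬ BddSol z := fun hb => h (by rw [Sig_eq]; exact hb)
  obtain ⟨m, hm, hU⟩ := exists_unif {z} isCompact_singleton (by
    intro w hw
    rw [Set.mem_singleton_iff.mp hw]
    exact h1)
  exact ⟨_, DecU_of_Unif hm (hU z rfl)⟩

theorem isClosed_Sig : IsClosed Sig := by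
  rw [Sig_eq]
  exact isCompact_bddSol.isClosed

theorem E_subset : E ⊆ Sig := by
  rintro z ⟨w, hw⟩
  by_contra h
  obtain ⟨M, hM⟩ := exists_DecU h
  exact DecU_ne_zero hM w hw

theorem closure_E_subset : closure E ⊆ Sig := closure_minimal E_subset isClosed_Sig

theorem E_subset_interior : E ⊆ interior Sig := by
  rintro z ⟨w, hw⟩
  rw [mem_interior]
  refine ⟨{z | ‖(P w).eval z‖ < 1}, ?_, ?_, ?_⟩
  · intro x hx
    exact closure_E_subset (closure_P (ball_mem _ (le_of_lt hx)))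
  · exact isOpen_lt ((P w).continuous.norm) continuous_const
  · simp [P, hw]

end Pool.Agent.FZR
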