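import Pool.Agent.FZR.Grow
import Pool.Agent.FZR.Eig

set_option autoImplicit false

open Polynomial Pool.Agent.FZC Filter Topology Set Metric

/-!
Harnack and the dichotomy.  Text: MP_1366af_an_closure_helper78.md, sections 2 and 4.
-/

namespace Pool.Agent.FZR

/-- Exponential growth of all `P v` at `z`. -/
def Gr (z : ℂ) : Prop :=
  ∃ κ c : ℝ, 1 < κ ∧ 0 < c ∧ ∀ v : List Bool, c * κ ^ v.length ≤ ‖(P v).eval z‖

/-- Harnack for the logarithm of the modulus of a zero free function of modulus at least one. -/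
theorem harnack (f : ℂ → ℂ) (a : ℂ) (r : ℝ) (hf : ∀ z ∈ ball a r, AnalyticAt ℂ f z)
    (h1 : ∀ z ∈ ball a r, 1 < ‖f z‖) (z : ℂ) (hz : ‖z - a‖ ≤ r / 2) (hr : 0 < r) :
    ‖f a‖ ≤ ‖f z‖ ^ 3 := by
  have hne : ∀ z ∈ ball a r, f z ≠ 0 := by
    intro w hw h0
    have := h1 w hw
    rw [h0, norm_zero] at this
    linarith
  have hh : InnerProductSpace.HarmonicOnNhd (fun z => Real.log ‖f z‖) (ball a r) := by
    intro w hw
    exact (hf w hw).harmonicAt_log_norm (hne w hw)
  obtain ⟨F, hF, hre⟩ := hh.exists_analyticOnNhd_ball_re_eq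
  have hre' : ∀ w ∈ ball a r, (F w).re = Real.log ‖f w‖ := fun w hw => hre hw
  have hpos : ∀ w ∈ ball a r, 0 < (F w).re := by
    intro w hw
    rw [hre' w hw]
    exact Real.log_pos (h1 w hw)
  have ha : a ∈ ball a r := mem_ball_self hr
  have hza : z ∈ ball a r := by
    rw [mem_ball, dist_eq_norm]
    linarith
  set α : ℂ := F a with hα
  set s : ℝ := α.re with hs
  have hs0 : 0 < s := hpos a ha
  set φ : ℂ → ℂ := fun w => (F w - α) / (F w + (starRingEnd ℂ) α) with hφ
  have hden : ∀ w ∈ ball a r, F w + (starRingEnd ℂ) α ≠ 0 := by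
    intro w hw h0
    have h2 := congrArg Complex.re h0
    rw [Complex.add_re, Complex.conj_re, Complex.zero_re] at h2
    have := hpos w hw
    linarith
  have hsq : ∀ w ∈ ball a r, ‖F w - α‖ ^ 2 ≤ ‖F w + (starRingEnd ℂ) α‖ ^ 2 := by
    intro w hw
    rw [← Complex.normSq_eq_norm_sq, ← Complex.normSq_eq_norm_sq, Complex.normSq_apply,
      Complex.normSq_apply]
    simp only [Complex.sub_re, Complex.sub_im, Complex.add_re, Complex.add_im, Complex.conj_re,
      Complex.conj_im]
    nlinarith [hpos w hw, hs0]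
  have hφ1 : ∀ w ∈ ball a r, ‖φ w‖ ≤ 1 := by
    intro w hw
    simp only [hφ]
    rw [norm_div, div_le_one (norm_pos_iff.2 (hden w hw))]
    exact abs_le_of_sq_le_sq' (hsq w hw) (norm_nonneg _) |>.2
  have hφa : φ a = 0 := by simp [hφ, hα]
  have hd : DifferentiableOn ℂ φ (ball a r) := by
    intro w hw
    have h2 : DifferentiableAt ℂ F w := (hF w hw).differentiableAt
    exact ((h2.sub_const _).div (h2.add_const _) (hden w hw)).differentiableWithinAt
  have hm : MapsTo φ (ball a r) (closedBall (φ a) 1) := by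
    intro w hw
    rw [hφa, mem_closedBall, dist_zero_right]
    exact hφ1 w hw
  have hsch := Complex.dist_le_div_mul_dist_of_mapsTo_ball hd hm hza
  rw [hφa, dist_zero_right, dist_eq_norm] at hsch
  have h2 : ‖φ z‖ ≤ 1 / 2 := by
    refine hsch.trans ?_
    rw [div_mul_eq_mul_div, one_mul, div_le_iff₀ hr]
    linarith
  have h3 : ‖F z - α‖ ≤ 1 / 2 * ‖F z + (starRingEnd ℂ) α‖ := by
    simp only [hφ] at h2
    rwa [norm_div, div_le_iff₀ (norm_pos_iff.2 (hden z hza))] at h2
  have h4 : ‖F z - α‖ ^ 2 ≤ (1 / 2) ^ 2 * ‖F z + (starRingEnd ℂ) α‖ ^ 2 := by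
    rw [← mul_pow]
    exact pow_le_pow_left₀ (norm_nonneg _) h3 2
  rw [← Complex.normSq_eq_norm_sq, ← Complex.normSq_eq_norm_sq, Complex.normSq_apply,
      Complex.normSq_apply] at h4
  simp only [Complex.sub_re, Complex.sub_im, Complex.add_re, Complex.add_im, Complex.conj_re,
      Complex.conj_im] at h4
  have hx := hpos z hza
  have h5 : (2 * (s - (F z).re)) ^ 2 ≤ ((F z).re + s) ^ 2 := by
    nlinarith [sq_nonneg ((F z).im - α.im)]
  have h6 : 2 * (s - (F z).re) ≤ (F z).re + s := abs_le_of_sq_le_sq' h5 (by linarith) |>.2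
  have h7 : s ≤ 3 * (F z).re := by linarith
  rw [hs, hα, hre' a ha, hre' z hza] at h7
  have hfa : 0 < ‖f a‖ := by linarith [h1 a ha]
  have hfz : 0 < ‖f z‖ := by linarith [h1 z hza]
  have h8 : Real.log ‖f a‖ ≤ Real.log (‖f z‖ ^ 3) := by
    rw [Real.log_pow]
    exact_mod_cast h7
  exact (Real.log_le_log_iff hfa (by positivity)).1 h8

theorem Gr_local {a z : ℂ} {r : ℝ} (hr : 0 < r) (hb : ∀ w ∈ ball a r, w ∉ closure E)
    (ha : Gr a) (hz : ‖z - a‖ ≤ r / 2) : Gr z := by
  obtain ⟨κ, c, hκ, hc, h⟩ := ha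
  have hκ0 : 0 < κ := by linarith
  refine ⟨κ ^ (1 / 3 : ℝ), c ^ (1 / 3 : ℝ), Real.one_lt_rpow hκ (by norm_num),
    Real.rpow_pos_of_pos hc _, fun v => ?_⟩
  have h1 := harnack (fun w => (P v).eval w) a r
    (fun w _ => (AnalyticOnNhd.eval_polynomial (P v)) w (Set.mem_univ _))
    (fun w hw => P_norm_gt (hb w hw) v) z hz hr
  have h2 := (h v).trans h1
  have e1 : (κ ^ (1 / 3 : ℝ)) ^ 3 = κ := by
    rw [← Real.rpow_natCast, ← Real.rpow_mul hκ0.le]
    norm_num
  have e2 : (c ^ (1 / 3 : ℝ)) ^ 3 = c := by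
    rw [← Real.rpow_natCast, ← Real.rpow_mul hc.le]
    norm_num
  have h3 : (c ^ (1 / 3 : ℝ) * (κ ^ (1 / 3 : ℝ)) ^ v.length) ^ 3 ≤ ‖(P v).eval z‖ ^ 3 := by
    rw [mul_pow, e2, ← pow_mul, mul_comm v.length 3, pow_mul, e1]
    exact h2
  exact le_of_pow_le_pow_left₀ (by norm_num) (norm_nonneg _) h3

/-- Off the spectrum all determinants grow exponentially. -/
theorem Gr_of_not_mem {z : ℂ} (h : z ∉ Sig) : Gr z := by
  obtain ⟨M, hM⟩ := exists_DecU h
  have hz0 : z ≠ 0 := by
    rintro rfl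
    exact h (E_subset ⟨[], by simp [D, KK]⟩)
  have hM0 : 0 < M := by
    have h1 := hM [] 0 (le_refl _)
    rw [KS_zero] at h1
    simp only [List.length_nil, Nat.cast_zero, sub_zero, zero_add, eval_one, norm_one, mul_one] at h1
    by_contra hcon
    have : M * ‖(D []).eval z‖ ≤ 0 := mul_nonpos_of_nonpos_of_nonneg (not_lt.1 hcon) (norm_nonneg _)
    linarith
  have hlow : ∀ w : List Bool, 1 / M ≤ ‖(D w).eval z‖ := by
    intro w
    have h1 := hM w 0 (Nat.zero_le _)
    rw [KS_zero] at h1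
    simp only [Nat.cast_zero, sub_zero, eval_one, norm_one, mul_one] at h1
    rw [div_le_iff₀ hM0]
    have : (0 : ℝ) ≤ w.length := Nat.cast_nonneg _
    linarith
  obtain ⟨L, hL⟩ : ∃ L : ℕ, 2 * M ≤ L := exists_nat_ge _
  have hL0 : 0 < L := by
    by_contra hcon
    have : L = 0 := by omega
    rw [this] at hL
    simp only [Nat.cast_zero] at hL
    linarith
  have hstep : ∀ w : List Bool, L ≤ w.length →
      2 * ‖(D (w.take (w.length - L))).eval z‖ ≤ ‖(D w).eval z‖ := by
    intro w hw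
    have h1 := hM w (w.length - L + 1) (by omega)
    have h2 : KS w (w.length - L + 1) = D (w.take (w.length - L)) := by
      simp [KS]
    rw [h2] at h1
    have h3 : ((w.length : ℝ) - ((w.length - L + 1 : ℕ) : ℝ) + 1) = L := by
      push_cast [Nat.cast_sub hw]
      ring
    rw [h3] at h1
    have h4 : 0 ≤ ‖(D (w.take (w.length - L))).eval z‖ := norm_nonneg _
    have h5 : 2 * M * ‖(D (w.take (w.length - L))).eval z‖ ≤ M * ‖(D w).eval z‖ :=
      (mul_le_mul_of_nonneg_right hL h4).trans h1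
    have h6 : M * (2 * ‖(D (w.take (w.length - L))).eval z‖) ≤ M * ‖(D w).eval z‖ := by linarith
    exact le_of_mul_le_mul_left h6 hM0
  set κ : ℝ := 2 ^ ((1 : ℝ) / L) with hκ
  have hκ1 : 1 < κ := Real.one_lt_rpow (by norm_num) (by positivity)
  have hκL : κ ^ L = 2 := by
    rw [hκ, ← Real.rpow_natCast, ← Real.rpow_mul (by norm_num)]
    have : (L : ℝ) ≠ 0 := by positivity
    rw [one_div, inv_mul_cancel₀ this, Real.rpow_one]
  have hκ0 : 0 < κ := by linarith
  have key : ∀ n : ℕ, ∀ w : List Bool, w.length = n → 1 / (2 * M) * κ ^ n ≤ ‖(D w).eval z‖ := by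
    intro n
    induction n using Nat.strong_induction_on with
    | _ n ih =>
      intro w hw
      rcases Nat.lt_or_ge n L with h1 | h1
      · have h2 : κ ^ n ≤ 2 := by
          rw [← hκL]
          exact pow_le_pow_right₀ hκ1.le h1.le
        calc 1 / (2 * M) * κ ^ n ≤ 1 / (2 * M) * 2 :=
              mul_le_mul_of_nonneg_left h2 (by positivity)
          _ = 1 / M := by field_simp
          _ ≤ _ := hlow w
      · have h2 := hstep w (by omega)
        have h3 := ih (n - L) (by omega) (w.take (w.length - L)) (by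
          rw [List.length_take]; omega)
        calc 1 / (2 * M) * κ ^ n = 2 * (1 / (2 * M) * κ ^ (n - L)) := by
              have h4 : κ ^ n = κ ^ (n - L) * 2 := by
                rw [← hκL, ← pow_add]
                congr 1
                omega
              rw [h4]
              ring
          _ ≤ 2 * ‖(D (w.take (w.length - L))).eval z‖ := by linarith
          _ ≤ _ := h2
  refine ⟨κ, ‖z‖ * (1 / (2 * M)), hκ1, by have := norm_pos_iff.2 hz0; positivity, fun v => ?_⟩
  have h1 := key v.length v rfl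
  have h2 : (P v).eval z = z * (D v).eval z := by simp [P]
  rw [h2, norm_mul, mul_assoc]
  exact mul_le_mul_of_nonneg_left h1 (norm_nonneg _)

theorem not_mem_of_Gr {z : ℂ} (h : Gr z) : z ∉ Sig := by
  obtain ⟨κ, c, hκ, hc, h⟩ := h
  have hz0 : z ≠ 0 := by
    rintro rfl
    have h1 := h []
    simp [P] at h1
    linarith
  have hzn : 0 < ‖z‖ := norm_pos_iff.2 hz0
  rw [Sig_eq]
  refine not_bddSol_of_growth hκ (show 0 < c / ‖z‖ by positivity) fun w => ?_
  have h1 := h w
  have h2 : (P w).eval z = z * (D w).eval z := by simp [P]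
  rw [h2, norm_mul] at h1
  rw [div_mul_eq_mul_div, div_le_iff₀ hzn]
  linarith

/-- THE DICHOTOMY. -/
theorem dichotomy (U : Set ℂ) (hU : IsOpen U) (hc : IsPreconnected U)
    (hd : Disjoint U (closure E)) : U ⊆ Sig ∨ Disjoint U Sig := by
  by_cases hs : U ⊆ Sig
  · exact Or.inl hs
  right
  obtain ⟨a, haU, haS⟩ := Set.not_subset.1 hs
  have hdU : ∀ w ∈ U, w ∉ closure E := fun w hw => Set.disjoint_left.1 hd hw
  set G : Set ℂ := {z | Gr z ∧ z ∉ closure E} with hG
  have hGo : IsOpen G := by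
    rw [Metric.isOpen_iff]
    rintro z ⟨hz, hzE⟩
    obtain ⟨ε, hε, hball⟩ := Metric.isOpen_iff.1 (isClosed_closure (s := E)).isOpen_compl z hzE
    refine ⟨ε / 2, by positivity, fun w hw => ?_⟩
    rw [mem_ball, dist_eq_norm] at hw
    refine ⟨Gr_local hε (fun x hx => hball hx) hz hw.le, ?_⟩
    apply hball
    rw [mem_ball, dist_eq_norm]
    linarith
  have hsub : U ⊆ G := by
    refine hc.subset_of_closure_inter_subset hGo ⟨a, haU, Gr_of_not_mem haS, hdU a haU⟩ ?_
    rintro z ⟨hzc, hzU⟩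
    refine ⟨?_, hdU z hzU⟩
    obtain ⟨ε, hε, hball⟩ := Metric.isOpen_iff.1 hU z hzU
    obtain ⟨b, hb, hbd⟩ := Metric.mem_closure_iff.1 hzc (ε / 4) (by positivity)
    rw [dist_eq_norm] at hbd
    refine Gr_local (a := b) (r := ε / 2) (by positivity) (fun w hw => ?_) hb.1 ?_
    · apply hdU
      apply hball
      rw [mem_ball, dist_eq_norm] at hw ⊢
      have h1 : w - z = (w - b) - (z - b) := by ring
      rw [h1]
      refine (norm_sub_le _ _).trans_lt ?_
      linarith
    · linarith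
  rw [Set.disjoint_left]
  intro z hz
  exact not_mem_of_Gr (hsub hz).1

theorem frontier_subset : frontier Sig ⊆ closure E := by
  intro z hz
  by_contra hzE
  obtain ⟨ε, hε, hball⟩ := Metric.isOpen_iff.1 (isClosed_closure (s := E)).isOpen_compl z hzE
  have hd : Disjoint (ball z ε) (closure E) := by
    rw [Set.disjoint_left]
    intro w hw
    exact hball hw
  rcases dichotomy (ball z ε) isOpen_ball (convex_ball z ε).isPreconnected hd with h | h
  · have h1 : z ∈ interior Sig := mem_interior.2 ⟨ball z ε, h, isOpen_ball, mem_ball_self hε⟩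
    exact hz.2 h1
  · have h1 : z ∈ Sig := isClosed_Sig.frontier_subset hz
    exact Set.disjoint_left.1 h (mem_ball_self hε) h1

theorem closure_interior : closure (interior Sig) = Sig := by
  apply Set.Subset.antisymm
  · exact closure_minimal interior_subset isClosed_Sig
  · intro z hz
    by_cases h : z ∈ interior Sig
    · exact subset_closure h
    · have h1 : z ∈ frontier Sig := by
        rw [isClosed_Sig.frontier_eq]
        exact ⟨hz, h⟩
      exact closure_mono E_subset_interior (frontier_subset h1)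

end Pool.Agent.FZR
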