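import Mathlib

set_option autoImplicit false

/-!
The sequence lemma: the data of a bounded solution in the presence of uniform exponential growth of all
finite determinants is contradictory.  Text: MP_1366af_an_closure_helper78.md, section 3.
-/

namespace Pool.Agent.FZR

/-- First time at which `q k ^ 2 ≤ θ`. -/
theorem first_hit (C A c κ R θ : ℝ) (hA : 0 < A) (N : ℕ) (hθ0 : 0 < θ) (hθ : θ * R = A * N) (hθ1 : θ < 1 / 4)
    (hbig : 1 / θ + 2 + R < c * κ ^ N) (q : ℕ → ℝ) (s : ℕ → ℂ) (hq : ∀ n, 0 < q n)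
    (hq1 : ∀ n, q n ≤ 1) (hq0 : 1 / 2 ≤ q 0) (h2 : ∀ n, q n ≤ C * q (n + 1))
    (h3 : ∀ n, ‖s (n + 1) - s n‖ ≤ A / q n ^ 2)
    (h5 : c * κ ^ N ≤ q 0 / q N + q N / q 0 + q 0 * q N * ‖s N - s 0‖) :
    ∃ k, 1 ≤ k ∧ k ≤ N ∧ ‖s k - s 0‖ ≤ R ∧ θ < C ^ 2 * q k ^ 2 ∧ q k ^ 2 ≤ θ := by
  classical
  -- distance travelled while `q ^ 2 > θ`
  have trav : ∀ k : ℕ, (∀ i < k, θ < q i ^ 2) → ‖s k - s 0‖ ≤ k * (A / θ) := by
    intro k
    induction k with
    | zero => intro _; simp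
    | succ k ih =>
      intro h
      have h6 := ih (fun i hi => h i (by omega))
      have h7 : ‖s (k + 1) - s k‖ ≤ A / θ := by
        refine (h3 k).trans ?_
        exact div_le_div_of_nonneg_left hA.le hθ0 (h k (by omega)).le
      have h8 : s (k + 1) - s 0 = (s (k + 1) - s k) + (s k - s 0) := by ring
      rw [h8]
      refine (norm_add_le _ _).trans ?_
      push_cast
      linarith
  have hAθ : ∀ k : ℕ, k ≤ N → (k : ℝ) * (A / θ) ≤ R := by
    intro k hk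
    have h6 : (k : ℝ) ≤ N := by exact_mod_cast hk
    rw [← mul_div_assoc, div_le_iff₀ hθ0]
    nlinarith [mul_le_mul_of_nonneg_right h6 hA.le]
  have hex : ∃ k, k ≤ N ∧ q k ^ 2 ≤ θ := by
    by_contra hcon
    push Not at hcon
    have h6 := (trav N (fun i hi => hcon i (by omega))).trans (hAθ N le_rfl)
    have h7 := hcon N le_rfl
    have h8 : q 0 / q N ≤ 1 / θ := by
      rw [div_le_div_iff₀ (hq N) hθ0]
      have h9 : q N ^ 2 ≤ q N := by nlinarith [hq N, hq1 N]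
      nlinarith [hq N, hq1 0, hq 0]
    have h9 : q N / q 0 ≤ 2 := by
      rw [div_le_iff₀ (hq 0)]
      linarith [hq1 N]
    have h10 : q 0 * q N * ‖s N - s 0‖ ≤ R := by
      have h11 : q 0 * q N ≤ 1 := by nlinarith [hq 0, hq N, hq1 0, hq1 N]
      have h12 : 0 ≤ ‖s N - s 0‖ := norm_nonneg _
      nlinarith
    linarith
  let k := Nat.find hex
  have hk : k ≤ N ∧ q k ^ 2 ≤ θ := Nat.find_spec hex
  have hmin : ∀ i < k, θ < q i ^ 2 := by
    intro i hi
    have h6 := Nat.find_min hex hi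
    push Not at h6
    exact h6 (by omega)
  have hk1 : 1 ≤ k := by
    by_contra h6
    have h7 : k = 0 := by omega
    have h8 := hk.2
    rw [h7] at h8
    nlinarith
  refine ⟨k, hk1, hk.1, (trav k hmin).trans (hAθ k hk.1), ?_, hk.2⟩
  obtain ⟨m, hm⟩ : ∃ m, k = m + 1 := ⟨k - 1, by omega⟩
  have h6 := hmin m (by omega)
  have h7 := h2 m
  rw [hm]
  have h8 : q m ^ 2 ≤ (C * q (m + 1)) ^ 2 := by
    have := hq m
    gcongr
  nlinarith

/-- Large `N`. -/
theorem exists_large (C A c κ : ℝ) (hC : 1 ≤ C) (hA : 0 < A) (hc : 0 < c) (hκ : 1 < κ) (m : ℕ) :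
    ∃ N : ℕ, 1 ≤ N ∧ 8 * A * N / (c * κ ^ N) < 1 / 4 ∧
      c * κ ^ N / (8 * A * N) + 2 + c * κ ^ N / 8 < c * κ ^ N ∧
      ((2 * C + 2 * A * N) / c) ^ m < c * κ ^ N / (32 * A * N) := by
  have hκ0 : 0 < κ := by linarith
  -- n * (2 C + 2 A n)^m / κ^n → 0
  have key : Filter.Tendsto (fun n : ℕ => (n : ℝ) ^ (m + 1) / κ ^ n) Filter.atTop (nhds 0) :=
    tendsto_pow_const_div_const_pow_of_one_lt (m + 1) hκ
  have key1 : Filter.Tendsto (fun n : ℕ => (n : ℝ) ^ 1 / κ ^ n) Filter.atTop (nhds 0) :=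
    tendsto_pow_const_div_const_pow_of_one_lt 1 hκ
  have key2 : Filter.Tendsto (fun n : ℕ => κ ^ n) Filter.atTop Filter.atTop :=
    tendsto_pow_atTop_atTop_of_one_lt hκ
  have hB : 0 < (2 * C + 2 * A) / c := by positivity
  have e1 := key.eventually (gt_mem_nhds
    (show (0 : ℝ) < c / (32 * A * ((2 * C + 2 * A) / c) ^ m) by positivity))
  have e2 := key1.eventually (gt_mem_nhds (show (0 : ℝ) < c / (32 * A) by positivity))
  have e3 := key2.eventually_gt_atTop (8 / c)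
  have e4 := Filter.eventually_ge_atTop (α := ℕ) (max 1 (Nat.ceil (1 / (A))))
  obtain ⟨N, h1, h2, h3, h4⟩ := (e1.and (e2.and (e3.and e4))).exists
  have hN1 : 1 ≤ N := (le_max_left _ _).trans h4
  have hN0 : (0 : ℝ) < N := by exact_mod_cast hN1
  have hN1' : (1 : ℝ) ≤ N := by exact_mod_cast hN1
  have hNA : 1 ≤ A * N := by
    have h5 : 1 / A ≤ (N : ℝ) := (Nat.le_ceil _).trans (by exact_mod_cast (le_max_right _ _).trans h4)
    rw [div_le_iff₀ hA] at h5
    linarith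
  have hκN : 0 < κ ^ N := by positivity
  refine ⟨N, hN1, ?_, ?_, ?_⟩
  · rw [pow_one, div_lt_div_iff₀ hκN (by positivity)] at h2
    rw [div_lt_iff₀ (by positivity)]
    nlinarith
  · have h5 : c * κ ^ N / (8 * A * N) ≤ c * κ ^ N / 8 := by
      apply div_le_div_of_nonneg_left (by positivity) (by norm_num)
      linarith
    have h6 : 8 < c * κ ^ N := by
      rw [div_lt_iff₀ hc] at h3
      linarith
    linarith
  · have h5 : ((2 * C + 2 * A * N) / c) ^ m ≤ ((2 * C + 2 * A) / c) ^ m * (N : ℝ) ^ m := by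
      rw [← mul_pow]
      apply pow_le_pow_left₀ (by positivity)
      rw [div_mul_eq_mul_div]
      apply div_le_div_of_nonneg_right _ hc.le
      nlinarith
    refine lt_of_le_of_lt h5 ?_
    rw [div_lt_div_iff₀ hκN (by positivity)] at h1
    rw [lt_div_iff₀ (by positivity)]
    calc ((2 * C + 2 * A) / c) ^ m * (N : ℝ) ^ m * (32 * A * N)
        = (N : ℝ) ^ (m + 1) * (32 * A * ((2 * C + 2 * A) / c) ^ m) := by ring
      _ < c * κ ^ N := h1

/-- The contradiction. -/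
theorem no_seq (C A c κ : ℝ) (hC : 1 ≤ C) (hA : 0 < A) (hc : 0 < c) (hκ : 1 < κ)
    (p : ℤ → ℝ) (t : ℤ → ℂ) (hp0 : ∀ n, 0 < p n) (hp1 : ∀ n, p n ≤ 1) (hp : 1 / 2 ≤ p 0)
    (h1 : ∀ n, p (n + 1) ≤ C * p n) (h2 : ∀ n, p n ≤ C * p (n + 1))
    (h3 : ∀ n, ‖t (n + 1) - t n‖ ≤ A / p n ^ 2) (h4 : ∀ n, ‖t (n + 1) - t n‖ ≤ A / p (n + 1) ^ 2)
    (h5 : ∀ (j : ℤ) (n : ℕ), 1 ≤ n →
      c * κ ^ n ≤ p j / p (j + n) + p (j + n) / p j + p j * p (j + n) * ‖t (j + n) - t j‖) :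
    False := by
  obtain ⟨m, hm⟩ : ∃ m : ℕ, C ^ 2 ≤ κ ^ m := by
    obtain ⟨m, hm⟩ := pow_unbounded_of_one_lt (C ^ 2) hκ
    exact ⟨m, hm.le⟩
  obtain ⟨N, hN1, hN2, hN3, hN4⟩ := exists_large C A c κ hC hA hc hκ m
  have hN0 : (0 : ℝ) < N := by exact_mod_cast hN1
  have hκN : 0 < κ ^ N := by positivity
  set R : ℝ := c * κ ^ N / 8 with hR
  set θ : ℝ := 8 * A * N / (c * κ ^ N) with hθ
  have hθ0 : 0 < θ := by positivity
  have hR0 : 0 < R := by positivity
  have hθR : θ * R = A * N := by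
    rw [hθ, hR]
    field_simp
  have h1θ : 1 / θ = c * κ ^ N / (8 * A * N) := by rw [hθ, one_div_div]
  have hbig : 1 / θ + 2 + R < c * κ ^ N := by rw [h1θ]; exact hN3
  -- forward
  obtain ⟨k, k1, kN, kR, kθ, kθ'⟩ := first_hit C A c κ R θ hA N hθ0 hθR hN2 hbig
    (fun n => p n) (fun n => t n) (fun n => hp0 _) (fun n => hp1 _) (by simpa using hp)
    (fun n => by have := h2 n; push_cast; exact this)
    (fun n => by have := h3 n; push_cast; exact this)
    (by have := h5 0 N hN1; simpa using this)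
  -- backward
  obtain ⟨l, l1, lN, lR, lθ, lθ'⟩ := first_hit C A c κ R θ hA N hθ0 hθR hN2 hbig
    (fun n => p (-n)) (fun n => t (-n)) (fun n => hp0 _) (fun n => hp1 _) (by simpa using hp)
    (fun n => by
      have := h1 (-(n : ℤ) - 1)
      rw [show -(n : ℤ) - 1 + 1 = -n by ring] at this
      push_cast
      rw [show -((n : ℤ) + 1) = -n - 1 by ring]
      exact this)
    (fun n => by
      have := h4 (-(n : ℤ) - 1)
      rw [show -(n : ℤ) - 1 + 1 = -n by ring] at this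
      push_cast
      rw [show -((n : ℤ) + 1) = -n - 1 by ring, norm_sub_rev]
      exact this)
    (by
      have := h5 (-N) N hN1
      rw [show -(N : ℤ) + N = 0 by ring] at this
      simp only [Nat.cast_zero, neg_zero]
      rw [norm_sub_rev]
      calc c * κ ^ N ≤ _ := this
        _ = _ := by ring)
  simp only [Nat.cast_zero, neg_zero] at kR lR
  -- the pair
  have hpk := hp0 (k : ℤ)
  have hpl := hp0 (-(l : ℤ))
  have h6 := h5 (-l) (l + k) (by omega)
  rw [show -(l : ℤ) + ((l + k : ℕ) : ℤ) = k by push_cast; ring] at h6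
  have hC0 : 0 < C := by linarith
  have r1 : p (-l) / p k ≤ C := by
    rw [div_le_iff₀ hpk]
    have h7 : p (-l) ^ 2 ≤ (C * p k) ^ 2 := by
      rw [mul_pow]; exact lθ'.trans kθ.le
    exact (abs_le_of_sq_le_sq' h7 (by positivity)).2
  have r2 : p k / p (-l) ≤ C := by
    rw [div_le_iff₀ hpl]
    have h7 : p k ^ 2 ≤ (C * p (-l)) ^ 2 := by
      rw [mul_pow]; exact kθ'.trans lθ.le
    exact (abs_le_of_sq_le_sq' h7 (by positivity)).2
  have r3 : p (-l) * p k ≤ θ := by nlinarith [sq_nonneg (p (-l) - p k)]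
  have r4 : ‖t k - t (-l)‖ ≤ 2 * R := by
    have h7 : t k - t (-l) = (t k - t 0) - (t (-l) - t 0) := by ring
    rw [h7]
    refine (norm_sub_le _ _).trans ?_
    linarith
  have r5 : p (-l) * p k * ‖t k - t (-l)‖ ≤ 2 * (A * N) := by
    rw [← hθR]
    calc p (-l) * p k * ‖t k - t (-l)‖ ≤ θ * (2 * R) :=
          mul_le_mul r3 r4 (norm_nonneg _) hθ0.le
      _ = 2 * (θ * R) := by ring
  have r6 : κ ^ (l + k) ≤ (2 * C + 2 * A * N) / c := by
    rw [le_div_iff₀ hc]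
    linarith
  have r7 : κ ^ k ≤ (2 * C + 2 * A * N) / c := by
    refine le_trans ?_ r6
    exact pow_le_pow_right₀ hκ.le (by omega)
  -- p k is not small
  have r8 : ∀ n : ℕ, p 0 ≤ C ^ n * p n := by
    intro n
    induction n with
    | zero => simp
    | succ n ih =>
      have h7 := h2 n
      calc p 0 ≤ C ^ n * p n := ih
        _ ≤ C ^ n * (C * p ((n : ℤ) + 1)) := mul_le_mul_of_nonneg_left h7 (by positivity)
        _ = C ^ (n + 1) * p ((n + 1 : ℕ) : ℤ) := by push_cast; ring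
  have r9 : 1 / (4 * θ) ≤ (C ^ 2) ^ k := by
    have h7 := r8 k
    rw [div_le_iff₀ (by positivity)]
    have h8 : (1 / 2 : ℝ) ^ 2 ≤ (C ^ k * p k) ^ 2 := by
      have : (0:ℝ) ≤ 1 / 2 := by norm_num
      exact pow_le_pow_left₀ this (hp.trans h7) 2
    have h9 : (C ^ k * p k) ^ 2 ≤ (C ^ 2) ^ k * θ := by
      calc (C ^ k * p k) ^ 2 = (C ^ 2) ^ k * p k ^ 2 := by rw [mul_pow, ← pow_mul, ← pow_mul, mul_comm k 2]
        _ ≤ (C ^ 2) ^ k * θ := mul_le_mul_of_nonneg_left kθ' (by positivity)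
    linarith
  have r10 : (C ^ 2) ^ k ≤ ((2 * C + 2 * A * N) / c) ^ m := by
    calc (C ^ 2) ^ k ≤ (κ ^ m) ^ k := pow_le_pow_left₀ (by positivity) hm k
      _ = (κ ^ k) ^ m := by rw [← pow_mul, ← pow_mul, mul_comm]
      _ ≤ _ := pow_le_pow_left₀ (by positivity) r7 m
  have r11 : 1 / (4 * θ) = c * κ ^ N / (32 * A * N) := by
    rw [hθ]
    field_simp
    ring
  linarith

end Pool.Agent.FZR
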