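import Pool.Agent.FZC.Nb
import Pool.Agent.FZR.Seq

set_option autoImplicit false

open Polynomial Pool.Agent.FZC

/-!
Exponential growth of all finite determinants excludes bounded solutions.
Text: MP_1366af_an_closure_helper78.md, section 3.
-/

namespace Pool.Agent.FZR

/-- The forward half of a solution. -/
private noncomputable def fw (β : ℤ → Bool) (z a b : ℂ) : ℕ → ℂ × ℂ
  | 0 => (a, b)
  | n + 1 => ((fw β z a b n).2, z * (fw β z a b n).2 - sg (β n) * (fw β z a b n).1)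

/-- The backward half of a solution. -/
private noncomputable def bw (β : ℤ → Bool) (z a b : ℂ) : ℕ → ℂ × ℂ
  | 0 => (a, b)
  | n + 1 => (sg (β (-n - 1)) * (z * (bw β z a b n).1 - (bw β z a b n).2), (bw β z a b n).1)

theorem sg_sq (a : Bool) : sg a * sg a = 1 := by cases a <;> simp [sg]

theorem exists_sol (β : ℤ → Bool) (z a b : ℂ) : ∃ y : ℤ → ℂ, y 0 = a ∧ y 1 = b ∧
    ∀ n, y (n + 1) + sg (β (n - 1)) * y (n - 1) = z * y n := by
  refine ⟨fun n => if 0 ≤ n then (fw β z a b n.toNat).1 else (bw β z a b (-n).toNat).1, ?_, ?_, ?_⟩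
  · simp [fw]
  · simp [fw]
  · intro n
    beta_reduce
    have hfb : ∀ m : ℕ, (bw β z a b (m + 1)).2 = (bw β z a b m).1 := fun m => rfl
    rcases lt_trichotomy n 0 with hn | hn | hn
    · obtain ⟨m, rfl⟩ : ∃ m : ℕ, n = -(m : ℤ) - 1 := ⟨(-n - 1).toNat, by omega⟩
      have e1 : ¬ (0 : ℤ) ≤ -(m : ℤ) - 1 := by omega
      have e2 : ¬ (0 : ℤ) ≤ -(m : ℤ) - 1 - 1 := by omega
      have e3 : (-(-(m : ℤ) - 1)).toNat = m + 1 := by omega
      have e4 : (-(-(m : ℤ) - 1 - 1)).toNat = m + 2 := by omega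
      simp only [if_neg e1, if_neg e2, e3, e4]
      have h0 : (if 0 ≤ -(m : ℤ) - 1 + 1 then (fw β z a b (-(m : ℤ) - 1 + 1).toNat).1
          else (bw β z a b (-(-(m : ℤ) - 1 + 1)).toNat).1) = (bw β z a b (m + 1)).2 := by
        rcases Nat.eq_zero_or_pos m with rfl | hm
        · simp [fw, bw]
        · have e5 : ¬ (0 : ℤ) ≤ -(m : ℤ) - 1 + 1 := by omega
          have e6 : (-(-(m : ℤ) - 1 + 1)).toNat = m := by omega
          rw [if_neg e5, e6, hfb]
      rw [h0]
      have h1 : (bw β z a b (m + 2)).1 = sg (β (-((m + 1 : ℕ) : ℤ) - 1)) *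
          (z * (bw β z a b (m + 1)).1 - (bw β z a b (m + 1)).2) := rfl
      rw [h1]
      have e7 : -(m : ℤ) - 1 - 1 = -((m + 1 : ℕ) : ℤ) - 1 := by push_cast; ring
      rw [e7, ← mul_assoc, sg_sq]
      ring
    · subst hn
      have h1 : (bw β z a b 1).1 = sg (β (-((0 : ℕ) : ℤ) - 1)) * (z * a - b) := rfl
      have e1 : ¬ (0 : ℤ) ≤ 0 - 1 := by omega
      have e2 : (-(0 - 1 : ℤ)).toNat = 1 := by omega
      rw [if_neg e1, e2, h1]
      have e3 : (fw β z a b (0 + 1 : ℤ).toNat).1 = b := by simp [fw]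
      have e4 : (fw β z a b (0 : ℤ).toNat).1 = a := by simp [fw]
      rw [if_pos (by omega), if_pos le_rfl, e3, e4]
      have e5 : (0 : ℤ) - 1 = -((0 : ℕ) : ℤ) - 1 := by simp
      rw [e5, ← mul_assoc, sg_sq]
      ring
    · obtain ⟨m, rfl⟩ : ∃ m : ℕ, n = (m : ℤ) + 1 := ⟨(n - 1).toNat, by omega⟩
      have e3 : ((m : ℤ) + 1 + 1).toNat = m + 2 := by omega
      have e4 : ((m : ℤ) + 1 - 1).toNat = m := by omega
      have e5 : ((m : ℤ) + 1).toNat = m + 1 := by omega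
      have e6 : (m : ℤ) + 1 - 1 = m := by ring
      rw [if_pos (by omega), if_pos (by omega), if_pos (by omega), e3, e4, e5, e6]
      have h1 : (fw β z a b (m + 2)).1 = (fw β z a b (m + 1)).2 := rfl
      have h2 : (fw β z a b (m + 1)).2 = z * (fw β z a b m).2 - sg (β m) * (fw β z a b m).1 := rfl
      have h3 : (fw β z a b (m + 1)).1 = (fw β z a b m).2 := rfl
      rw [h1, h2, h3]
      ring

/-- The modulus of the Wronskian is constant. -/
theorem wronskian (β : ℤ → Bool) (z : ℂ) (ψ y : ℤ → ℂ)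
    (hψ : ∀ n, ψ (n + 1) + sg (β (n - 1)) * ψ (n - 1) = z * ψ n)
    (hy : ∀ n, y (n + 1) + sg (β (n - 1)) * y (n - 1) = z * y n) (n : ℤ) :
    ‖ψ n * y (n + 1) - y n * ψ (n + 1)‖ = ‖ψ 0 * y 1 - y 0 * ψ 1‖ := by
  have step : ∀ n : ℤ, ‖ψ (n + 1) * y (n + 1 + 1) - y (n + 1) * ψ (n + 1 + 1)‖ =
      ‖ψ n * y (n + 1) - y n * ψ (n + 1)‖ := by
    intro n
    have h1 := hψ (n + 1)
    have h2 := hy (n + 1)
    rw [show n + 1 - 1 = n by ring] at h1 h2
    have h3 : ψ (n + 1) * y (n + 1 + 1) - y (n + 1) * ψ (n + 1 + 1) =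
        sg (β n) * (ψ n * y (n + 1) - y n * ψ (n + 1)) := by
      linear_combination (ψ (n + 1)) * h2 - y (n + 1) * h1
    rw [h3, norm_mul, norm_sg, one_mul]
  induction n using Int.induction_on with
  | zero => simp
  | succ n ih => rw [step, ih]
  | pred n ih =>
    rw [← ih]
    have := step (-(n : ℤ) - 1)
    rw [show -(n : ℤ) - 1 + 1 = -n by ring] at this
    rw [show -(n : ℤ) - 1 + 1 = -n by ring]
    exact this.symm

/-- The determinant of the sites `j + 1, .., j + m + 1` as a two by two minor. -/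
theorem minor (β : ℤ → Bool) (z : ℂ) (ψ y : ℤ → ℂ)
    (hψ : ∀ n, ψ (n + 1) + sg (β (n - 1)) * ψ (n - 1) = z * ψ n)
    (hy : ∀ n, y (n + 1) + sg (β (n - 1)) * y (n - 1) = z * y n) (j : ℤ) (m : ℕ) :
    ψ j * y (j + m + 2) - y j * ψ (j + m + 2) =
      (D (LL β (j + 1) m)).eval z * (ψ j * y (j + 1) - y j * ψ (j + 1)) := by
  have h1 := one_sided β z ψ hψ m (j + 1)
  have h2 := one_sided β z y hy m (j + 1)
  rw [show j + 1 - 1 = j by ring, show j + 1 + (m : ℤ) + 1 = j + m + 2 by ring] at h1 h2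
  linear_combination y j * h1 - ψ j * h2

/-- The core: a bounded solution normalised at `0`. -/
theorem core (β : ℤ → Bool) (z : ℂ) (ψ : ℤ → ℂ) (κ c : ℝ) (hκ : 1 < κ) (hc : 0 < c)
    (hD : ∀ w : List Bool, c * κ ^ w.length ≤ ‖(D w).eval z‖)
    (hψ : ∀ n, ψ (n + 1) + sg (β (n - 1)) * ψ (n - 1) = z * ψ n)
    (hb : ∀ n, ‖ψ n‖ ≤ 1) (h0 : 1 / 2 ≤ ‖ψ 0‖) : False := by
  classical
  obtain ⟨y, hy0, hy1, hy⟩ := exists_sol β z 0 1
  have hW : ∀ n, ‖ψ n * y (n + 1) - y n * ψ (n + 1)‖ = ‖ψ 0‖ := by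
    intro n
    rw [wronskian β z ψ y hψ hy n, hy0, hy1]
    simp
  have hW1 : ∀ n, ‖ψ n * y (n + 1) - y n * ψ (n + 1)‖ ≤ 1 := fun n => (hW n).trans_le (hb 0)
  have hW2 : ∀ n, 1 / 2 ≤ ‖ψ n * y (n + 1) - y n * ψ (n + 1)‖ := fun n => h0.trans (hW n).ge
  set C : ℝ := ‖z‖ + 1 with hC
  have hC1 : 1 ≤ C := by rw [hC]; linarith [norm_nonneg z]
  have hC0 : 0 < C := by linarith
  -- generic step bounds for solutions
  have stepf : ∀ u : ℤ → ℂ, (∀ n, u (n + 1) + sg (β (n - 1)) * u (n - 1) = z * u n) → ∀ n,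
      max ‖u (n + 1)‖ ‖u (n + 1 + 1)‖ ≤ C * max ‖u n‖ ‖u (n + 1)‖ := by
    intro u hu n
    have h1 := hu (n + 1)
    rw [show n + 1 - 1 = n by ring] at h1
    have h2 : ‖u (n + 1 + 1)‖ ≤ ‖z‖ * ‖u (n + 1)‖ + ‖u n‖ := by
      have h3 : u (n + 1 + 1) = z * u (n + 1) - sg (β n) * u n := by linear_combination h1
      rw [h3]
      refine (norm_sub_le _ _).trans ?_
      rw [norm_mul, norm_mul, norm_sg, one_mul]
    have h4 := le_max_left ‖u n‖ ‖u (n + 1)‖
    have h5 := le_max_right ‖u n‖ ‖u (n + 1)‖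
    have h6 : 0 ≤ max ‖u n‖ ‖u (n + 1)‖ := (norm_nonneg _).trans h4
    apply max_le
    · nlinarith [norm_nonneg z]
    · rw [hC]
      nlinarith [norm_nonneg z]
  have stepb : ∀ u : ℤ → ℂ, (∀ n, u (n + 1) + sg (β (n - 1)) * u (n - 1) = z * u n) → ∀ n,
      max ‖u n‖ ‖u (n + 1)‖ ≤ C * max ‖u (n + 1)‖ ‖u (n + 1 + 1)‖ := by
    intro u hu n
    have h1 := hu (n + 1)
    rw [show n + 1 - 1 = n by ring] at h1
    have h2 : ‖u n‖ ≤ ‖z‖ * ‖u (n + 1)‖ + ‖u (n + 1 + 1)‖ := by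
      have h3 : sg (β n) * u n = z * u (n + 1) - u (n + 1 + 1) := by linear_combination h1
      have h4 : ‖u n‖ = ‖sg (β n) * u n‖ := by rw [norm_mul, norm_sg, one_mul]
      rw [h4, h3]
      refine (norm_sub_le _ _).trans ?_
      rw [norm_mul]
    have h4 := le_max_left ‖u (n + 1)‖ ‖u (n + 1 + 1)‖
    have h5 := le_max_right ‖u (n + 1)‖ ‖u (n + 1 + 1)‖
    have h6 : 0 ≤ max ‖u (n + 1)‖ ‖u (n + 1 + 1)‖ := (norm_nonneg _).trans h4
    apply max_le
    · rw [hC]
      nlinarith [norm_nonneg z]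
    · nlinarith [norm_nonneg z]
  set p : ℤ → ℝ := fun n => max ‖ψ n‖ ‖ψ (n + 1)‖ with hp
  have hp1 : ∀ n, p n ≤ 1 := fun n => max_le (hb _) (hb _)
  have hp0 : ∀ n, 0 < p n := by
    intro n
    rcases (norm_nonneg (ψ n)).lt_or_eq with h | h
    · exact lt_max_of_lt_left h
    · rcases (norm_nonneg (ψ (n + 1))).lt_or_eq with h' | h'
      · exact lt_max_of_lt_right h'
      · exfalso
        have h1 := hW2 n
        rw [norm_eq_zero.1 h.symm, norm_eq_zero.1 h'.symm] at h1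
        simp at h1
        linarith
  -- the difference solutions
  have hd : ∀ s : ℂ, ∀ n, (y (n + 1) - s * ψ (n + 1)) + sg (β (n - 1)) * (y (n - 1) - s * ψ (n - 1))
      = z * (y n - s * ψ n) := by
    intro s n
    linear_combination hy n - s * hψ n
  set Df : ℂ → ℤ → ℝ := fun s n => max ‖y n - s * ψ n‖ ‖y (n + 1) - s * ψ (n + 1)‖ with hDf
  have Df1 : ∀ s n, Df s (n + 1) ≤ C * Df s n := fun s n => stepf (fun n => y n - s * ψ n) (hd s) n
  have Df2 : ∀ s n, Df s n ≤ C * Df s (n + 1) := fun s n => stepb (fun n => y n - s * ψ n) (hd s) n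
  have Df3 : ∀ s s' n, ‖s - s'‖ * p n ≤ Df s n + Df s' n := by
    intro s s' n
    have h1 : ∀ k, ‖s - s'‖ * ‖ψ k‖ ≤ ‖y k - s * ψ k‖ + ‖y k - s' * ψ k‖ := by
      intro k
      rw [← norm_mul]
      have h2 : (s - s') * ψ k = (y k - s' * ψ k) - (y k - s * ψ k) := by ring
      rw [h2]
      exact (norm_sub_le _ _).trans (by linarith)
    simp only [hp, hDf]
    rcases le_total ‖ψ n‖ ‖ψ (n + 1)‖ with h | h
    · rw [max_eq_right h]
      refine (h1 (n + 1)).trans ?_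
      exact add_le_add (le_max_right _ _) (le_max_right _ _)
    · rw [max_eq_left h]
      refine (h1 n).trans ?_
      exact add_le_add (le_max_left _ _) (le_max_left _ _)
  have ht : ∀ n, ∃ s : ℂ, Df s n ≤ 1 / p n := by
    intro n
    simp only [hp, hDf]
    rcases le_total ‖ψ n‖ ‖ψ (n + 1)‖ with h | h
    · rw [max_eq_right h]
      have h1 : 0 < ‖ψ (n + 1)‖ := by
        have := hp0 n
        simp only [hp] at this
        rwa [max_eq_right h] at this
      have h2 : ψ (n + 1) ≠ 0 := norm_pos_iff.1 h1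
      refine ⟨y (n + 1) / ψ (n + 1), ?_⟩
      have h3 : y n - y (n + 1) / ψ (n + 1) * ψ n =
          -(ψ n * y (n + 1) - y n * ψ (n + 1)) / ψ (n + 1) := by
        field_simp
        ring
      have h4 : y (n + 1) - y (n + 1) / ψ (n + 1) * ψ (n + 1) = 0 := by
        field_simp
        ring
      rw [h3, h4, norm_zero, norm_div, norm_neg]
      apply max_le
      · exact div_le_div_of_nonneg_right (hW1 n) h1.le
      · positivity
    · rw [max_eq_left h]
      have h1 : 0 < ‖ψ n‖ := by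
        have := hp0 n
        simp only [hp] at this
        rwa [max_eq_left h] at this
      have h2 : ψ n ≠ 0 := norm_pos_iff.1 h1
      refine ⟨y n / ψ n, ?_⟩
      have h3 : y (n + 1) - y n / ψ n * ψ (n + 1) =
          (ψ n * y (n + 1) - y n * ψ (n + 1)) / ψ n := by
        field_simp
      have h4 : y n - y n / ψ n * ψ n = 0 := by
        field_simp
        ring
      rw [h3, h4, norm_zero, norm_div]
      apply max_le
      · positivity
      · exact div_le_div_of_nonneg_right (hW1 n) h1.le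
  choose t ht using ht
  have hpf : ∀ n, p (n + 1) ≤ C * p n := fun n => stepf ψ hψ n
  have hpb : ∀ n, p n ≤ C * p (n + 1) := fun n => stepb ψ hψ n
  have hinv1 : ∀ n, 1 / p (n + 1) ≤ C / p n := by
    intro n
    rw [div_le_div_iff₀ (hp0 _) (hp0 _)]
    linarith [hpb n]
  have hinv2 : ∀ n, 1 / p n ≤ C / p (n + 1) := by
    intro n
    rw [div_le_div_iff₀ (hp0 _) (hp0 _)]
    linarith [hpf n]
  have hstep : ∀ n, ‖t (n + 1) - t n‖ * p (n + 1) ≤ 1 / p (n + 1) + C / p n := by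
    intro n
    refine (Df3 _ _ (n + 1)).trans ?_
    refine add_le_add (ht (n + 1)) ((Df1 (t n) n).trans ?_)
    calc C * Df (t n) n ≤ C * (1 / p n) := mul_le_mul_of_nonneg_left (ht n) hC0.le
      _ = C / p n := by ring
  set κ' : ℝ := κ with hκ'
  obtain ⟨c1, hc1, hc2, hc3⟩ : ∃ c1 : ℝ, 0 < c1 ∧ c1 * κ ≤ 1 / 2 ∧ c1 * κ ^ 2 ≤ c / 2 := by
    have hκ0 : 0 < κ := by linarith
    refine ⟨min (1 / (2 * κ)) (c / (2 * κ ^ 2)), by positivity, ?_, ?_⟩
    · calc min (1 / (2 * κ)) (c / (2 * κ ^ 2)) * κ ≤ 1 / (2 * κ) * κ :=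
            mul_le_mul_of_nonneg_right (min_le_left _ _) hκ0.le
        _ = 1 / 2 := by field_simp
    · calc min (1 / (2 * κ)) (c / (2 * κ ^ 2)) * κ ^ 2 ≤ c / (2 * κ ^ 2) * κ ^ 2 :=
            mul_le_mul_of_nonneg_right (min_le_right _ _) (by positivity)
        _ = c / 2 := by field_simp
  refine no_seq C (2 * C ^ 2) c1 κ hC1 (by positivity) hc1 hκ p t hp0 hp1
    (h0.trans (le_max_left _ _)) hpf hpb ?_ ?_ ?_
  · intro n
    rw [le_div_iff₀ (by have := hp0 n; positivity)]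
    have h1 := hstep n
    have h2 : ‖t (n + 1) - t n‖ * p (n + 1) ≤ 2 * C / p n := by
      calc _ ≤ 1 / p (n + 1) + C / p n := h1
        _ ≤ C / p n + C / p n := by linarith [hinv1 n]
        _ = 2 * C / p n := by ring
    rw [le_div_iff₀ (hp0 n)] at h2
    have h3 := hpb n
    have h4 : 0 ≤ ‖t (n + 1) - t n‖ * p n := mul_nonneg (norm_nonneg _) (hp0 n).le
    calc ‖t (n + 1) - t n‖ * p n ^ 2 = (‖t (n + 1) - t n‖ * p n) * p n := by ring
      _ ≤ (‖t (n + 1) - t n‖ * p n) * (C * p (n + 1)) := mul_le_mul_of_nonneg_left h3 h4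
      _ = C * (‖t (n + 1) - t n‖ * p (n + 1) * p n) := by ring
      _ ≤ C * (2 * C) := mul_le_mul_of_nonneg_left h2 hC0.le
      _ = 2 * C ^ 2 := by ring
  · intro n
    rw [le_div_iff₀ (by have := hp0 (n + 1); positivity)]
    have h1 := hstep n
    have h2 : ‖t (n + 1) - t n‖ * p (n + 1) ≤ 2 * C ^ 2 / p (n + 1) := by
      calc _ ≤ 1 / p (n + 1) + C * (1 / p n) := by rw [mul_one_div]; exact h1
        _ ≤ 1 / p (n + 1) + C * (C / p (n + 1)) := by
            have := mul_le_mul_of_nonneg_left (hinv2 n) hC0.le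
            linarith
        _ = (1 + C ^ 2) / p (n + 1) := by ring
        _ ≤ 2 * C ^ 2 / p (n + 1) := by
            apply div_le_div_of_nonneg_right _ (hp0 _).le
            nlinarith
    rw [le_div_iff₀ (hp0 _)] at h2
    calc _ = ‖t (n + 1) - t n‖ * p (n + 1) * p (n + 1) := by ring
      _ ≤ _ := h2
  · intro j n hn
    -- lower bound
    have hlow : c1 * κ ^ n ≤ ‖ψ j * y (j + n) - y j * ψ (j + n)‖ := by
      rcases Nat.lt_or_ge n 2 with h2 | h2
      · have h3 : n = 1 := by omega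
        subst h3
        have h4 := hW2 j
        push_cast
        rw [pow_one]
        exact hc2.trans h4
      · obtain ⟨m, rfl⟩ : ∃ m, n = m + 2 := ⟨n - 2, by omega⟩
        have h3 := minor β z ψ y hψ hy j m
        have e1 : j + ((m + 2 : ℕ) : ℤ) = j + m + 2 := by push_cast; ring
        rw [e1, h3, norm_mul]
        have h4 := hD (LL β (j + 1) m)
        have h5 : (LL β (j + 1) m).length = m := by simp [LL]
        rw [h5] at h4
        have h6 := hW2 j
        have h7 : 0 ≤ c * κ ^ m := by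
          have : 0 < κ := by linarith
          positivity
        calc c1 * κ ^ (m + 2) = (c1 * κ ^ 2) * κ ^ m := by ring
          _ ≤ (c / 2) * κ ^ m := mul_le_mul_of_nonneg_right hc3 (by
              have : 0 < κ := by linarith
              positivity)
          _ = (c * κ ^ m) * (1 / 2) := by ring
          _ ≤ _ := mul_le_mul h4 h6 (by norm_num) (norm_nonneg _)
    refine hlow.trans ?_
    have h1 : ψ j * y (j + n) - y j * ψ (j + n) =
        ψ j * (y (j + n) - t j * ψ (j + n)) - (y j - t j * ψ j) * ψ (j + n) := by ring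
    rw [h1]
    refine (norm_sub_le _ _).trans ?_
    rw [norm_mul, norm_mul]
    have h2 : ‖ψ j‖ ≤ p j := le_max_left _ _
    have h3 : ‖ψ (j + n)‖ ≤ p (j + n) := le_max_left _ _
    have h4 : ‖y j - t j * ψ j‖ ≤ 1 / p j := (le_max_left _ _).trans (ht j)
    have h5 : ‖y (j + n) - t j * ψ (j + n)‖ ≤ 1 / p (j + n) + p (j + n) * ‖t (j + n) - t j‖ := by
      have h6 : y (j + n) - t j * ψ (j + n) = (y (j + n) - t (j + n) * ψ (j + n)) +
          ψ (j + n) * (t (j + n) - t j) := by ring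
      rw [h6]
      refine (norm_add_le _ _).trans ?_
      rw [norm_mul]
      exact add_le_add ((le_max_left _ _).trans (ht (j + n)))
        (mul_le_mul_of_nonneg_right h3 (norm_nonneg _))
    have hpj := hp0 j
    have hpn := hp0 (j + n)
    calc ‖ψ j‖ * ‖y (j + n) - t j * ψ (j + n)‖ + ‖y j - t j * ψ j‖ * ‖ψ (j + n)‖
        ≤ p j * (1 / p (j + n) + p (j + n) * ‖t (j + n) - t j‖) + 1 / p j * p (j + n) :=
          add_le_add (mul_le_mul h2 h5 (norm_nonneg _) hpj.le)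
            (mul_le_mul h4 h3 (norm_nonneg _) (by positivity))
      _ = p j / p (j + n) + p (j + n) / p j + p j * p (j + n) * ‖t (j + n) - t j‖ := by ring

/-- Exponential growth of all finite determinants excludes bounded solutions. -/
theorem not_bddSol_of_growth {z : ℂ} {κ c : ℝ} (hκ : 1 < κ) (hc : 0 < c)
    (hD : ∀ w : List Bool, c * κ ^ w.length ≤ ‖(D w).eval z‖) : ¬ BddSol z := by
  rintro ⟨b, hb, ψ, ⟨C, hC⟩, ⟨i, hi⟩, hψ⟩
  classical
  obtain ⟨β, hβ⟩ : ∃ β : ℤ → Bool, ∀ n, sg (β n) = b n := by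
    refine ⟨fun n => decide (b n = 1), fun n => ?_⟩
    rcases hb n with h1 | h1
    · simp [sg, h1]
    · have h2 : ¬ ((-1 : ℂ) = 1) := by norm_num
      simp [sg, h1, h2]
  have hbd : BddAbove (Set.range fun n => ‖ψ n‖) := ⟨C, by rintro _ ⟨n, rfl⟩; exact hC n⟩
  set S : ℝ := ⨆ n, ‖ψ n‖ with hS
  have hle : ∀ n, ‖ψ n‖ ≤ S := fun n => le_ciSup hbd n
  have hS0 : 0 < S := (norm_pos_iff.2 hi).trans_le (hle i)
  obtain ⟨i0, hi0⟩ : ∃ i0, S / 2 < ‖ψ i0‖ := exists_lt_of_lt_ciSup (by linarith)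
  have hSc : (S : ℂ) ≠ 0 := by exact_mod_cast hS0.ne'
  refine core (fun n => β (n + i0)) z (fun n => ψ (n + i0) / S) κ c hκ hc hD ?_ ?_ ?_
  · intro n
    have h1 := hψ (n + i0)
    have h2 := hβ (n - 1 + i0)
    rw [h2]
    rw [show n + i0 + 1 = n + 1 + i0 by ring, show n + i0 - 1 = n - 1 + i0 by ring] at h1
    field_simp
    linear_combination h1
  · intro n
    rw [norm_div, Complex.norm_real, Real.norm_of_nonneg hS0.le, div_le_one hS0]
    exact hle _
  · rw [norm_div, Complex.norm_real, Real.norm_of_nonneg hS0.le, zero_add, le_div_iff₀ hS0]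
    linarith

end Pool.Agent.FZR
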