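import Pool.Agent.FZR.Har

set_option autoImplicit false

open Polynomial Pool.Agent.FZC

/-!
Eigenvalues of the finite sign matrices, in terms of eigenvectors.
-/

namespace Pool.Agent.FZR

/-- `z` is an eigenvalue of the `(n + 1) × (n + 1)` matrix with zero diagonal, superdiagonal `1` and
subdiagonal `b 0, .., b (n - 1)`; the rows are `0, .., n`. -/
def IsEig (n : ℕ) (b : ℕ → ℂ) (z : ℂ) : Prop :=
  ∃ x : ℕ → ℂ, (∃ k, k ≤ n ∧ x k ≠ 0) ∧ ∀ k, k ≤ n →
    (if k < n then x (k + 1) else 0) + (if k = 0 then 0 else b (k - 1) * x (k - 1)) = z * x k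

theorem eig_of_D (w : List Bool) (z : ℂ) (h : (D w).eval z = 0) :
    IsEig w.length (fun k => if hk : k < w.length then sg (w[k]'hk) else 1) z := by
  refine ⟨fun k => (KS w k).eval z, ⟨0, Nat.zero_le _, by simp [KS_zero]⟩, ?_⟩
  intro k hk
  have hone : (KS w 1).eval z = z := by
    have : KS w 1 = D [] := by simp [KS]
    rw [this]
    simp [D, KK]
  have hlast : (KS w (w.length + 1)).eval z = 0 := by rw [KS_last, h]
  rcases Nat.eq_zero_or_pos k with rfl | hk0
  · simp only [zero_add, if_true, add_zero]
    rw [KS_zero, hone]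
    split_ifs with h1
    · simp
    · have h2 : w.length = 0 := by omega
      rw [h2] at hlast
      rw [zero_add, hone] at hlast
      simp [hlast]
  · obtain ⟨m, rfl⟩ : ∃ m, k = m + 1 := ⟨k - 1, by omega⟩
    have h1 := KS_rec w m (by omega)
    have h2 := congrArg (fun p => eval z p) h1
    simp only [eval_sub, eval_mul, eval_X, eval_C] at h2
    have h3 : m < w.length := by omega
    simp only [Nat.add_sub_cancel, h3, dif_pos, Nat.succ_ne_zero, if_false]
    split_ifs with h4
    · rw [show m + 1 + 1 = m + 2 by ring, h2]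
      ring
    · have h5 : m + 2 = w.length + 1 := by omega
      rw [h5, hlast] at h2
      linear_combination h2

theorem D_of_eig (n : ℕ) (b : ℕ → ℂ) (hb : ∀ k, b k = 1 ∨ b k = -1) (z : ℂ) (h : IsEig n b z) :
    z ∈ E := by
  classical
  obtain ⟨x, ⟨k0, hk0, hx⟩, hrow⟩ := h
  set w : List Bool := (List.range n).map (fun k => decide (b k = 1)) with hw
  have hwl : w.length = n := by simp [hw]
  have hsg : ∀ k (hk : k < w.length), sg (w[k]'hk) = b k := by
    intro k hk
    rcases hb k with h1 | h1
    · simp [hw, sg, h1]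
    · have h2 : ¬ ((-1 : ℂ) = 1) := by norm_num
      simp [hw, sg, h1, h2]
  have hone : (KS w 1).eval z = z := by
    have : KS w 1 = D [] := by simp [KS]
    rw [this]
    simp [D, KK]
  have hrec : ∀ m, m < n → (KS w (m + 2)).eval z = z * (KS w (m + 1)).eval z - b m * (KS w m).eval z := by
    intro m hm
    have h1 := KS_rec w m (by omega)
    have h2 := congrArg (fun p => eval z p) h1
    simp only [eval_sub, eval_mul, eval_X, eval_C] at h2
    rw [h2, hsg]
  have key : ∀ k, k ≤ n → x k = x 0 * (KS w k).eval z := by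
    intro k
    induction k using Nat.strong_induction_on with
    | _ k ih =>
      intro hk
      rcases k with _ | _ | m
      · rw [KS_zero]; simp
      · have h1 := hrow 0 (Nat.zero_le _)
        rw [if_pos (by omega), if_pos rfl] at h1
        rw [zero_add, hone]
        linear_combination h1
      · have h1 := hrow (m + 1) (by omega)
        rw [if_pos (by omega), if_neg (by omega), Nat.add_sub_cancel, ih (m + 1) (by omega) (by omega),
          ih m (by omega) (by omega)] at h1
        rw [show m + 1 + 1 = m + 2 by ring] at h1 ⊢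
        rw [hrec m (by omega)]
        linear_combination h1
  have hx0 : x 0 ≠ 0 := by
    intro h0
    apply hx
    rw [key k0 hk0, h0, zero_mul]
  refine ⟨w, ?_⟩
  rw [← KS_last, hwl]
  have hlast := hrow n le_rfl
  rw [if_neg (by omega), key n le_rfl] at hlast
  rcases Nat.eq_zero_or_pos n with h0 | h0
  · rw [h0, KS_zero] at hlast
    simp at hlast
    rw [h0, zero_add, hone]
    rcases hlast with h1 | h1
    · exact h1
    · exact absurd h1 hx0
  · obtain ⟨m, rfl⟩ : ∃ m, n = m + 1 := ⟨n - 1, by omega⟩
    rw [if_neg (by omega), Nat.add_sub_cancel, key m (by omega)] at hlast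
    rw [show m + 1 + 1 = m + 2 by ring, hrec m (by omega)]
    have h1 : x 0 * (z * (KS w (m + 1)).eval z - b m * (KS w m).eval z) = 0 := by
      linear_combination -hlast
    exact (mul_eq_zero.1 h1).resolve_left hx0

theorem E_eq : E = {z : ℂ | ∃ n : ℕ, ∃ b : ℕ → ℂ, (∀ k, b k = 1 ∨ b k = -1) ∧ IsEig n b z} := by
  ext z
  constructor
  · rintro ⟨w, hw⟩
    refine ⟨w.length, _, ?_, eig_of_D w z hw⟩
    intro k
    split_ifs with h
    · cases w[k] <;> simp [sg]
    · left; rfl
  · rintro ⟨n, b, hb, h⟩
    exact D_of_eig n b hb z h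

end Pool.Agent.FZR
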